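import Pool.Agent.GT.StmtsE
import Pool.Agent.GT.StmtsD

/-!
# Squad GT, row E_INJ (all classes come from the 2-torsion), helper46
-/

set_option autoImplicit false

namespace Pool.Agent.GT.OF.H46

open Polynomial Pool.Agent.NJ Pool.Agent.GT.D

theorem isSquare_of_mul {a b : ℤ} (hb0 : b ≠ 0) (hb : IsSquare b) (hab : IsSquare (a * b)) :
    IsSquare a := by
  obtain ⟨t, rfl⟩ := hb
  obtain ⟨s, hs⟩ := hab
  have ht : t ≠ 0 := fun h => hb0 (by rw [h, mul_zero])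
  have hd : t ^ 2 ∣ s ^ 2 := ⟨a, by rw [pow_two, ← hs]; ring⟩
  obtain ⟨u, rfl⟩ := (Int.pow_dvd_pow_iff two_ne_zero).1 hd
  refine ⟨u, ?_⟩
  have h2 : (t * t) * a = (t * t) * (u * u) := by
    rw [mul_comm (t * t) a, hs]
    ring
  exact mul_left_cancel₀ hb0 h2

theorem vl_P {r : ℕ} (hr : r.Prime) {n : ℤ} (hn : n ≠ 0) (h1 : (r : ℤ) ∣ n)
    (h2 : ¬ (r : ℤ) ^ 2 ∣ n) : vl r n = 1 := by
  haveI : Fact r.Prime := ⟨hr⟩
  have h3 : 1 ≤ padicValInt r n := by
    have := (padicValInt_dvd_iff 1 n).1 (by rw [pow_one]; exact h1)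
    exact this.resolve_left hn
  have h4 : ¬ 2 ≤ padicValInt r n := fun h => h2 ((padicValInt_dvd_iff 2 n).2 (Or.inr h))
  have h5 : padicValInt r n = 1 := by omega
  unfold vl
  rw [h5, Nat.cast_one]

theorem e_inj (hNrz : NrzStmt) (hSlc : SlcStmt) (hAdd : D.AddStmt) : InjStmt := by
  intro P hP0 hPs hZ
  obtain ⟨N, hN, hS⟩ := hSlc P hP0 hPs
  refine ⟨N, hN, ?_⟩
  intro ι _ _ r bl m st p h hW x w hT
  obtain ⟨x', w', hT', hz, hcase⟩ := hNrz ι P r bl m st p h N hN hW x w hT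
  obtain ⟨hcq, hcr, hvr⟩ := hS ι r bl m st p h hW x' w' hT' hz
  rcases hZ (Xc (rt 1 (Dn P bl m st p)) x' w') hT'.ne hT'.sq hcq hcr with hsq | ⟨j, hj⟩
  · rcases hcase with hc | ⟨j, hc⟩
    · exact Or.inl fun k => isSquare_of_mul (hT'.ne k) (hsq k) (hc k)
    · refine Or.inr ⟨j, fun k hk => isSquare_of_mul (hT'.ne k) (hsq k) ?_⟩
      have h1 := hc k hk
      have h2 : Xc (rt 1 (Dn P bl m st p)) x w k * Xc (rt 1 (Dn P bl m st p)) x' w' k *
          (rt 1 (Dn P bl m st p) j - rt 1 (Dn P bl m st p) k) =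
          Xc (rt 1 (Dn P bl m st p)) x w k *
          (rt 1 (Dn P bl m st p) j - rt 1 (Dn P bl m st p) k) *
          Xc (rt 1 (Dn P bl m st p)) x' w' k := by ring
      rw [h2] at h1
      exact h1
  · exfalso
    have hjk : j + 1 ≠ j := by
      fin_cases j <;> decide
    have h1 := hj (j + 1) hjk
    have h2 : rt 1 P j - rt 1 P (j + 1) = P (j + 2) := by
      have := (rt_sub (K := 1) hPs j).1
      linear_combination -this
    rw [h2] at h1
    obtain ⟨s, hs⟩ := h1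
    have hA := hAdd.1 r hW.rp
    have h3 := hA.mul _ _ (hT'.ne (j + 1)) (hP0 (j + 2))
    have hs0 : s ≠ 0 := by
      rintro rfl
      rw [mul_zero] at hs
      rcases mul_eq_zero.1 hs with h | h
      · exact hT'.ne (j + 1) h
      · exact hP0 (j + 2) h
    rw [hs, hA.sq hs0, hvr (j + 1), vl_P hW.rp (hP0 (j + 2)) (hW.rd (j + 2)).1
      (hW.rd (j + 2)).2, zero_add] at h3
    exact zero_ne_one h3

end Pool.Agent.GT.OF.H46
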